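import Mathlib

set_option autoImplicit false
open MeasureTheory Complex Topology Filter

namespace Pool.Agent.X54.MG

theorem torus_cauchy : ∀ (k : ℕ) (c : Fin k → ℂ) (R : ℝ), 0 < R → ∀ (f : (Fin k → ℂ) → ℂ),
    (∀ z : Fin k → ℂ, (∀ i, z i ∈ Metric.closedBall (c i) R) → DifferentiableAt ℂ f z) →
    ∀ z : Fin k → ℂ, (∀ i, z i ∈ Metric.ball (c i) R) →
    (∯ ζ in T(c, fun _ => R), (∏ i, (ζ i - z i)⁻¹) * f ζ) = (2 * Real.pi * I) ^ k * f z := by
  intro k
  induction k with
  | zero =>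
    intro c R hR f hf z hz
    rw [torusIntegral_dim0]
    have : c = z := Subsingleton.elim _ _
    simp [this]
  | succ k ih =>
    intro c R hR f hf z hz
    have hint : TorusIntegrable (fun ζ => (∏ i, (ζ i - z i)⁻¹) * f ζ) c (fun _ => R) := by
      unfold TorusIntegrable
      refine ContinuousOn.integrableOn_compact isCompact_Icc ?_
      intro θ hθ
      have hm : ∀ i, torusMap c (fun _ => R) θ i ∈ Metric.sphere (c i) R := by
        intro i
        simp [torusMap, abs_of_pos hR, Complex.norm_exp]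
      have hd := hf (torusMap c (fun _ => R) θ) (fun i => Metric.sphere_subset_closedBall (hm i))
      have hcm : Continuous (torusMap c (fun _ => R)) := by
        unfold torusMap
        fun_prop
      refine ContinuousAt.continuousWithinAt ?_
      refine ContinuousAt.mul ?_ (hd.continuousAt.comp hcm.continuousAt)
      refine tendsto_finsetProd _ fun i _ => ?_
      refine ContinuousAt.inv₀ ?_ ?_
      · exact (((continuous_apply i).comp hcm).sub continuous_const).continuousAt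
      · intro h0
        have h1 := hm i
        have h2 := hz i
        rw [sub_eq_zero.1 h0] at h1
        rw [Metric.mem_sphere] at h1
        rw [Metric.mem_ball] at h2
        linarith
    rw [torusIntegral_succ hint]
    have hone : (∮ x in C(c 0, R), (x - z 0)⁻¹ • f (Fin.cons x (Fin.tail z))) =
        (2 * Real.pi * I : ℂ) • f (Fin.cons (z 0) (Fin.tail z)) := by
      refine DiffContOnCl.circleIntegral_sub_inv_smul ?_ (hz 0)
      refine DifferentiableOn.diffContOnCl_ball (U := Metric.closedBall (c 0) R) ?_ subset_rfl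
      intro x hx
      refine DifferentiableAt.differentiableWithinAt ?_
      have h1 : DifferentiableAt ℂ f (Fin.cons x (Fin.tail z)) := by
        apply hf
        intro i
        refine Fin.cases ?_ (fun j => ?_) i
        · simpa using hx
        · simpa [Fin.tail] using Metric.ball_subset_closedBall (hz j.succ)
      refine h1.comp x ?_
      rw [differentiableAt_pi]
      intro i
      refine Fin.cases ?_ (fun j => ?_) i
      · simp
      · simp
    rw [Fin.cons_self_tail] at hone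
    have hcongr : (∮ x in C(c 0, R), ∯ y in T(c ∘ Fin.succ, (fun _ => R) ∘ Fin.succ),
        (∏ i, ((Fin.cons x y : Fin (k + 1) → ℂ) i - z i)⁻¹) * f (Fin.cons x y)) =
        ∮ x in C(c 0, R), (2 * Real.pi * I : ℂ) ^ k • ((x - z 0)⁻¹ • f (Fin.cons x (Fin.tail z))) := by
      refine circleIntegral.integral_congr hR.le ?_
      intro x hx
      simp only
      have hi := ih (c ∘ Fin.succ) R hR (fun y => f (Fin.cons x y)) ?_ (Fin.tail z) ?_
      · have e1 : ∀ y : Fin k → ℂ, (∏ i, ((Fin.cons x y : Fin (k + 1) → ℂ) i - z i)⁻¹) * f (Fin.cons x y) =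
            (x - z 0)⁻¹ * ((∏ i, (y i - Fin.tail z i)⁻¹) * f (Fin.cons x y)) := by
          intro y
          rw [Fin.prod_univ_succ]
          simp only [Fin.cons_zero, Fin.cons_succ, Fin.tail]
          ring
        simp_rw [e1]
        rw [torusIntegral_const_mul]
        have e2 : ((fun _ => R) ∘ Fin.succ : Fin k → ℝ) = fun _ => R := rfl
        rw [e2, hi]
        simp only [smul_eq_mul]
        ring
      · intro y hy
        have h1 : DifferentiableAt ℂ f (Fin.cons x y) := by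
          apply hf
          intro i
          refine Fin.cases ?_ (fun j => ?_) i
          · simpa using Metric.sphere_subset_closedBall hx
          · simpa using hy j
        refine h1.comp y ?_
        rw [differentiableAt_pi]
        intro i
        refine Fin.cases ?_ (fun j => ?_) i
        · simp
        · simpa using differentiableAt_apply j y
      · intro i
        exact hz i.succ
    refine hcongr.trans ?_
    rw [circleIntegral.integral_smul, hone]
    simp only [smul_eq_mul]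
    ring

/-- the germ `(x², y², xy, x³, xy², x²y, y³, 0, 0)` -/
noncomputable def ff (z : Fin 2 → ℂ) : Fin 9 → ℂ :=
  ![z 0 ^ 2, z 1 ^ 2, z 0 * z 1, z 0 ^ 3, z 0 * z 1 ^ 2, z 0 ^ 2 * z 1, z 1 ^ 3, 0, 0]

/-- every analytic function of two variables is, modulo linear forms, a function of the
monomials of degree two and three -/
theorem factor (g : (Fin 2 → ℂ) → ℂ) (hg : AnalyticAt ℂ g 0) :
    ∃ (G : (Fin 9 → ℂ) → ℂ) (c1 c2 : ℂ), AnalyticAt ℂ G 0 ∧
      ∀ᶠ z in 𝓝 (0 : Fin 2 → ℂ), g z = G (ff z) + c1 * z 0 + c2 * z 1 := by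
  classical
  obtain ⟨R, hR, hf⟩ : ∃ R : ℝ, 0 < R ∧ ∀ z : Fin 2 → ℂ, (∀ i, z i ∈ Metric.closedBall (0 : ℂ) R) →
      DifferentiableAt ℂ g z := by
    obtain ⟨R, hR, h⟩ := Metric.eventually_nhds_iff_ball.1 hg.eventually_analyticAt
    refine ⟨R / 2, by positivity, fun z hz => (h z ?_).differentiableAt⟩
    rw [mem_ball_zero_iff]
    refine lt_of_le_of_lt ((pi_norm_le_iff_of_nonneg (by positivity)).2 fun i => ?_) (half_lt_self hR)
    simpa using hz i
  let c : Fin 2 → ℂ := 0
  let K : Set (Fin 2 → ℝ) := Set.Icc 0 (fun _ => 2 * Real.pi)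
  have : CompactSpace K := isCompact_iff_compactSpace.1 isCompact_Icc
  have hcm : Continuous (torusMap c (fun _ => R)) := by
    unfold torusMap
    fun_prop
  let A : Fin 2 → C(K, ℂ) := fun i => ⟨fun θ => torusMap c (fun _ => R) θ.1 i, by fun_prop⟩
  have hm : ∀ (θ : Fin 2 → ℝ) i, torusMap c (fun _ => R) θ i ∈ Metric.sphere (c i) R := by
    intro θ i
    simp [torusMap, abs_of_pos hR, Complex.norm_exp]
  have hm' : ∀ (θ : K) i, ‖A i θ‖ = R := by
    intro θ i
    have := hm θ.1 i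
    simpa [A, c] using this
  have hu : ∀ (i : Fin 2) (u : ℂ), ‖u‖ < R ^ 2 → IsUnit (A i ^ 2 - u • (1 : C(K, ℂ))) := by
    intro i u hlt
    rw [ContinuousMap.isUnit_iff_forall_ne_zero]
    intro θ h0
    have h2 : A i θ ^ 2 = u := by
      have : A i θ ^ 2 - u = 0 := by simpa using h0
      exact sub_eq_zero.1 this
    rw [← h2, norm_pow, hm'] at hlt
    exact lt_irrefl _ hlt
  let P : ℂ → C(K, ℂ) := fun u => Ring.inverse (A 0 ^ 2 - u • 1)
  let Q : ℂ → C(K, ℂ) := fun v => Ring.inverse (A 1 ^ 2 - v • 1)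
  have hPv : ∀ u : ℂ, ‖u‖ < R ^ 2 → ∀ θ : K, P u θ * (A 0 θ ^ 2 - u) = 1 := by
    intro u hlt θ
    have h5 := congrArg (fun φ : C(K, ℂ) => φ θ) (Ring.inverse_mul_cancel _ (hu 0 u hlt))
    simpa [P] using h5
  have hQv : ∀ u : ℂ, ‖u‖ < R ^ 2 → ∀ θ : K, Q u θ * (A 1 θ ^ 2 - u) = 1 := by
    intro u hlt θ
    have h5 := congrArg (fun φ : C(K, ℂ) => φ θ) (Ring.inverse_mul_cancel _ (hu 1 u hlt))
    simpa [Q] using h5
  have hcoord : ∀ i : Fin 9, AnalyticAt ℂ (fun Y : Fin 9 → ℂ => Y i) 0 := fun i =>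
    (ContinuousLinearMap.proj (R := ℂ) (φ := fun _ : Fin 9 => ℂ) i).analyticAt 0
  have hinv : ∀ (i : Fin 2) (j : Fin 9),
      AnalyticAt ℂ (fun Y : Fin 9 → ℂ => Ring.inverse (A i ^ 2 - Y j • (1 : C(K, ℂ)))) 0 := by
    intro i j
    have h1 : AnalyticAt ℂ (fun Y : Fin 9 → ℂ => A i ^ 2 - Y j • (1 : C(K, ℂ))) 0 :=
      analyticAt_const.sub ((hcoord j).smul analyticAt_const)
    obtain ⟨u, hu'⟩ := hu i 0 (by simpa using by positivity)
    have h2 : AnalyticAt ℂ (Ring.inverse : C(K, ℂ) → C(K, ℂ))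
        (A i ^ 2 - (0 : Fin 9 → ℂ) j • (1 : C(K, ℂ))) := by
      have : A i ^ 2 - (0 : Fin 9 → ℂ) j • (1 : C(K, ℂ)) = u := by rw [hu']; rfl
      rw [this]
      exact analyticAt_inverse u
    exact AnalyticAt.fun_comp (f := fun Y : Fin 9 → ℂ => A i ^ 2 - Y j • (1 : C(K, ℂ))) h2 h1
  let Ker : (Fin 9 → ℂ) → C(K, ℂ) := fun Y =>
    (A 0 * A 1 + Y 2 • 1) * P (Y 0) * Q (Y 1) +
    A 1 * (Y 4 • (P 0 * Q 0 * Q (Y 1)) + Y 3 • (P 0 * P (Y 0) * Q (Y 1))) +
    A 0 * (Y 5 • (Q 0 * P 0 * P (Y 0)) + Y 6 • (Q 0 * P (Y 0) * Q (Y 1)))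
  have hPa : AnalyticAt ℂ (fun Y : Fin 9 → ℂ => P (Y 0)) 0 := hinv 0 0
  have hQa : AnalyticAt ℂ (fun Y : Fin 9 → ℂ => Q (Y 1)) 0 := hinv 1 1
  have hK : AnalyticAt ℂ Ker 0 := by
    have c0 : ∀ a : C(K, ℂ), AnalyticAt ℂ (fun _ : Fin 9 → ℂ => a) 0 := fun a => analyticAt_const
    refine AnalyticAt.add (AnalyticAt.add ?_ ?_) ?_
    · exact ((((c0 _).add ((hcoord 2).smul (c0 _))).mul hPa).mul hQa)
    · exact (c0 _).mul (((hcoord 4).smul ((c0 _).mul hQa)).add
        ((hcoord 3).smul (((c0 _).mul hPa).mul hQa)))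
    · exact (c0 _).mul (((hcoord 5).smul ((c0 _).mul hPa)).add
        ((hcoord 6).smul (((c0 _).mul hPa).mul hQa)))
  -- the functional
  let w : (Fin 2 → ℝ) → ℂ := fun θ => (∏ i, (R : ℂ) * Complex.exp (θ i * I) * I) * g (torusMap c (fun _ => R) θ)
  have hw : Continuous w := by
    refine Continuous.mul (by fun_prop) ?_
    rw [continuous_iff_continuousAt]
    intro θ
    exact (hf _ (fun i => Metric.sphere_subset_closedBall (hm θ i))).continuousAt.comp hcm.continuousAt
  have : IsFiniteMeasure (Measure.comap (Subtype.val : K → (Fin 2 → ℝ)) volume) := by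
    constructor
    rw [(MeasurableEmbedding.subtype_coe measurableSet_Icc).comap_apply]
    simp only [Set.image_univ, Subtype.range_coe_subtype]
    exact isCompact_Icc.measure_lt_top
  have hKi : ∀ φ : C(K, ℂ), Integrable (fun θ : K => φ θ * w θ)
      (Measure.comap (Subtype.val : K → (Fin 2 → ℝ)) volume) := fun φ =>
    (φ.continuous.mul (hw.comp continuous_subtype_val)).integrable_of_hasCompactSupport
      (HasCompactSupport.of_compactSpace _)
  let L : C(K, ℂ) →L[ℂ] ℂ := LinearMap.mkContinuous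
    { toFun := fun φ => ∫ θ : K, φ θ * w θ ∂(Measure.comap (Subtype.val : K → (Fin 2 → ℝ)) volume)
      map_add' := fun φ ψ => by
        simp only [ContinuousMap.add_apply, add_mul]
        exact integral_add (hKi φ) (hKi ψ)
      map_smul' := fun a φ => by
        simp only [ContinuousMap.smul_apply, smul_eq_mul, mul_assoc, RingHom.id_apply]
        exact integral_const_mul _ _ }
    (∫ θ : K, ‖w θ‖ ∂(Measure.comap (Subtype.val : K → (Fin 2 → ℝ)) volume)) (by
      intro φ
      simp only [LinearMap.coe_mk, AddHom.coe_mk]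
      refine (norm_integral_le_integral_norm _).trans ?_
      rw [mul_comm, ← integral_const_mul]
      refine integral_mono_ae (hKi φ).norm ?_ ?_
      · have := (hKi 1).norm
        simp only [ContinuousMap.one_apply, one_mul] at this
        exact this.const_mul _
      · refine ae_of_all _ fun θ => ?_
        simp only [norm_mul]
        exact mul_le_mul_of_nonneg_right (φ.norm_coe_le_norm θ) (norm_nonneg _))
  set κ : ℂ := (2 * Real.pi * I : ℂ)⁻¹ ^ 2 with hκ
  refine ⟨fun Y => κ * L (Ker Y), κ * L (A 1 * P 0 * Q 0), κ * L (A 0 * P 0 * Q 0),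
    analyticAt_const.mul ((L.analyticAt _).comp hK), ?_⟩
  have hev : ∀ᶠ z in 𝓝 c, ∀ i, z i ∈ Metric.ball (c i) R := by
    rw [eventually_all]
    intro i
    exact (continuous_apply i).continuousAt.eventually (Metric.ball_mem_nhds _ hR)
  filter_upwards [hev] with z hz
  have hz' : ∀ i, ‖z i‖ < R := fun i => by simpa [c] using hz i
  have h1 := torus_cauchy 2 c R hR g hf z hz
  -- the Cauchy kernel
  let Gk : C(K, ℂ) := Ker (ff z) + z 0 • (A 1 * P 0 * Q 0) + z 1 • (A 0 * P 0 * Q 0)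
  have h4 : ∀ θ : K, Gk θ = ∏ i, (torusMap c (fun _ => R) θ.1 i - z i)⁻¹ := by
    intro θ
    have hx : ‖z 0 ^ 2‖ < R ^ 2 := by
      rw [norm_pow]; exact pow_lt_pow_left₀ (hz' 0) (norm_nonneg _) (by norm_num)
    have hy : ‖z 1 ^ 2‖ < R ^ 2 := by
      rw [norm_pow]; exact pow_lt_pow_left₀ (hz' 1) (norm_nonneg _) (by norm_num)
    have h0 : ‖(0 : ℂ)‖ < R ^ 2 := by simpa using by positivity
    have p1 := hPv _ hx θ
    have q1 := hQv _ hy θ
    have p0 := hPv _ h0 θ
    have q0 := hQv _ h0 θ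
    rw [Fin.prod_univ_two]
    have ea : torusMap c (fun _ => R) θ.1 0 = A 0 θ := rfl
    have eb : torusMap c (fun _ => R) θ.1 1 = A 1 θ := rfl
    rw [ea, eb]
    have na : A 0 θ - z 0 ≠ 0 := by
      intro h
      have := hz' 0
      rw [← sub_eq_zero.1 h, hm'] at this
      exact lt_irrefl _ this
    have nb : A 1 θ - z 1 ≠ 0 := by
      intro h
      have := hz' 1
      rw [← sub_eq_zero.1 h, hm'] at this
      exact lt_irrefl _ this
    have na2 : A 0 θ + z 0 ≠ 0 := by
      intro h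
      have := hz' 0
      have e : z 0 = - A 0 θ := by linear_combination h
      rw [e, norm_neg, hm'] at this
      exact lt_irrefl _ this
    have nb2 : A 1 θ + z 1 ≠ 0 := by
      intro h
      have := hz' 1
      have e : z 1 = - A 1 θ := by linear_combination h
      rw [e, norm_neg, hm'] at this
      exact lt_irrefl _ this
    have n0 : A 0 θ ≠ 0 := by
      intro h
      have := hm' θ 0
      rw [h, norm_zero] at this
      exact hR.ne this
    have n1 : A 1 θ ≠ 0 := by
      intro h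
      have := hm' θ 1
      rw [h, norm_zero] at this
      exact hR.ne this
    have eP : P (z 0 ^ 2) θ = (A 0 θ - z 0)⁻¹ * (A 0 θ + z 0)⁻¹ := by
      rw [← mul_inv]
      apply eq_inv_of_mul_eq_one_left
      rw [← p1]; ring
    have eQ : Q (z 1 ^ 2) θ = (A 1 θ - z 1)⁻¹ * (A 1 θ + z 1)⁻¹ := by
      rw [← mul_inv]
      apply eq_inv_of_mul_eq_one_left
      rw [← q1]; ring
    have eP0 : P 0 θ = (A 0 θ)⁻¹ ^ 2 := by
      rw [inv_pow]
      apply eq_inv_of_mul_eq_one_left
      rw [← p0]; ring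
    have eQ0 : Q 0 θ = (A 1 θ)⁻¹ ^ 2 := by
      rw [inv_pow]
      apply eq_inv_of_mul_eq_one_left
      rw [← q0]; ring
    have eK : Gk θ = (A 0 θ * A 1 θ + z 0 * z 1) * P (z 0 ^ 2) θ * Q (z 1 ^ 2) θ +
        A 1 θ * ((z 0 * z 1 ^ 2) * (P 0 θ * Q 0 θ * Q (z 1 ^ 2) θ) +
          z 0 ^ 3 * (P 0 θ * P (z 0 ^ 2) θ * Q (z 1 ^ 2) θ)) +
        A 0 θ * ((z 0 ^ 2 * z 1) * (Q 0 θ * P 0 θ * P (z 0 ^ 2) θ) +
          z 1 ^ 3 * (Q 0 θ * P (z 0 ^ 2) θ * Q (z 1 ^ 2) θ)) +
        z 0 * (A 1 θ * P 0 θ * Q 0 θ) + z 1 * (A 0 θ * P 0 θ * Q 0 θ) := by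
      simp [Gk, Ker, ff]
    rw [eK, eP, eQ, eP0, eQ0]
    field_simp
    ring
  have h2 : L Gk = ∯ ζ in T(c, fun _ => R), (∏ i, (ζ i - z i)⁻¹) * g ζ := by
    change (∫ θ : K, Gk θ * w θ ∂(Measure.comap (Subtype.val : K → (Fin 2 → ℝ)) volume)) = _
    have h3 : ∀ θ : K, Gk θ * w θ = (fun θ : Fin 2 → ℝ => (∏ i, (R : ℂ) * Complex.exp (θ i * I) * I) •
        ((∏ i, (torusMap c (fun _ => R) θ i - z i)⁻¹) * g (torusMap c (fun _ => R) θ))) θ.1 := by
      intro θ
      simp only [h4, w, smul_eq_mul]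
      ring
    rw [integral_congr_ae (ae_of_all _ h3)]
    exact integral_subtype_comap (s := K) measurableSet_Icc (fun θ : Fin 2 → ℝ =>
      (∏ i, (R : ℂ) * Complex.exp (θ i * I) * I) •
        ((∏ i, (torusMap c (fun _ => R) θ i - z i)⁻¹) * g (torusMap c (fun _ => R) θ)))
  have h5 : L Gk = L (Ker (ff z)) + z 0 * L (A 1 * P 0 * Q 0) + z 1 * L (A 0 * P 0 * Q 0) := by
    simp only [Gk, map_add, map_smul, smul_eq_mul]
  have h6 : g z = κ * L Gk := by
    rw [h2, h1, hκ, ← mul_assoc, ← mul_pow, inv_mul_cancel₀ (by simp [Real.pi_ne_zero]), one_pow, one_mul]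
  rw [h6, h5]
  ring

end Pool.Agent.X54.MG
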